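import Pool.Agent.J4H46.MT.Sum
import Pool.Agent.J4H50.YZ.Stm

/-!
# YZ-Z1: the Thom-Sebastiani sum (for helper50)

Copy of the field `dec` of `good_sum` (`J4H46/MT/Sum.lean`), for arbitrary `K`, `K'`, `K''`.
-/

set_option autoImplicit false
set_option linter.unusedSectionVars false
set_option linter.unusedVariables false

namespace Pool.Agent.J4H18.YZ

open PowerSeries Pool.Agent.W574.MO Pool.Agent.W574.RO Pool.Agent.W574.SM Pool.Agent.N103
open Pool.Agent.J4H46.MS Pool.Agent.J4H46.MT
open Pool.Agent.J4H46.MQ (map_qq map_geo map_den den_mono qq11 ll Xcancel)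
open Pool.Agent.J4H50.YZ

open scoped Polynomial

variable {M E : Type} [CommRing M] [CommRing E] [Algebra M E] {L : Mˣ}

theorem dec_sum (S : TSys M E L) {K K' K'' : ℕ → ℕ → Prop}
    (hK : ∀ a n b m, 1 ≤ a → 1 ≤ n → 1 ≤ b → 1 ≤ m → K a n → K' b m →
      K'' (b * a) (b * n + a * m)) {Z Z' : E⟦X⟧}
    (hF : ∃ (R : E⟦X⟧) (ρ : M⟦X⟧), Z = R + PowerSeries.map (algebraMap M E) ρ ∧
      R ∈ DenRing (LE L) K ∧ (1 - qq L 1 1) * ρ ∈ DenRing L K ∧
      gtr (cm S.tot Z) - ρ ∈ DenRing L K)
    (hG : ∃ (R : E⟦X⟧) (ρ : M⟦X⟧), Z' = R + PowerSeries.map (algebraMap M E) ρ ∧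
      R ∈ DenRing (LE L) K' ∧ (1 - qq L 1 1) * ρ ∈ DenRing L K' ∧
      gtr (cm S.tot Z') - ρ ∈ DenRing L K') :
    ∃ (R : E⟦X⟧) (ρ : M⟦X⟧), tsm S Z Z' = R + PowerSeries.map (algebraMap M E) ρ ∧
      R ∈ DenRing (LE L) K'' ∧ (1 - qq L 1 1) * ρ ∈ DenRing L K'' ∧
      gtr (cm S.tot (tsm S Z Z')) - ρ ∈ DenRing L K'' := by
  obtain ⟨R, ρ, hZ, hR, hσ, hδ⟩ := hF
  obtain ⟨R', ρ', hZ', hR', hσ', hδ'⟩ := hG
  set g := gtr (cm S.tot Z) with hg
  set g' := gtr (cm S.tot Z') with hg'
  set lam := hd S.zr R R' with hlam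
  have hlamK : lam ∈ DenRing L K'' := hd_mem' _ hK hR hR'
  set z := hd S.zr Z Z' with hz
  -- the coefficients
  have ct : ∀ m, coeff m (cm S.tot Z) = S.tot (coeff m R) + ((L : M) - 1) * coeff m ρ := by
    intro m
    rw [coeff_cm, hZ, map_add, coeff_map, tot_alg]
  have ct' : ∀ m, coeff m (cm S.tot Z') = S.tot (coeff m R') + ((L : M) - 1) * coeff m ρ' := by
    intro m
    rw [coeff_cm, hZ', map_add, coeff_map, tot_alg]
  have cz : ∀ m, coeff m z = coeff m lam + coeff m ρ' * S.tot (coeff m R)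
      + coeff m ρ * S.tot (coeff m R') + coeff m ρ * coeff m ρ' * ((L : M) - 1) := by
    intro m
    have h2 : coeff m Z = coeff m R + algebraMap M E (coeff m ρ) := by
      conv_lhs => rw [hZ]
      rw [map_add, coeff_map]
    have h3 : coeff m Z' = coeff m R' + algebraMap M E (coeff m ρ') := by
      conv_lhs => rw [hZ']
      rw [map_add, coeff_map]
    rw [hz, Pool.Agent.J4H46.MT.coeff_hd, hlam, Pool.Agent.J4H46.MT.coeff_hd, h2, h3, zr_alg]
  have hl : ((L : M)) * ((L⁻¹ : Mˣ) : M) = 1 := L.mul_inv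
  set mm := LinearMap.mul M M with hmm
  have cmm : ∀ (x y : M), mm x y = x * y := fun x y => rfl
  refine ⟨hd (LinearMap.mul M E) R (PowerSeries.map (algebraMap M E) (g' - ρ'))
      + hd (LinearMap.mul M E) (PowerSeries.map (algebraMap M E) (g - ρ)) R' + hd S.nz R R',
    hd mm ρ (g' + cm S.tot Z') + hd mm (g + cm S.tot Z) ρ' - C (L : M) * hd mm ρ ρ'
      + z * qf L 1 1, ?_, ?_, ?_, ?_⟩
  · ext m
    rw [tsm, ← hg, ← hg', ← hz]
    simp only [map_add, Pool.Agent.J4H46.MT.coeff_hd, coeff_map, map_sub, coeff_C_mul, LinearMap.mul_apply', cmm,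
      ct, ct', LinearMap.add_apply, LinearMap.sub_apply]
    have h1 := nz_alg S (coeff m R) (coeff m R') (coeff m ρ) (coeff m ρ')
    have h2 : coeff m Z = coeff m R + algebraMap M E (coeff m ρ) := by
      conv_lhs => rw [hZ]
      rw [map_add, coeff_map]
    have h3 : coeff m Z' = coeff m R' + algebraMap M E (coeff m ρ') := by
      conv_lhs => rw [hZ']
      rw [map_add, coeff_map]
    rw [h2, h3, h1]
    simp only [map_mul, map_one, map_add, map_sub]
    ring
  · refine Subring.add_mem _ (Subring.add_mem _ ?_ ?_) ?_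
    · exact hd_mem _ hK hR (map_den _ hι' hδ')
    · exact hd_mem _ hK (map_den _ hι' hδ) hR'
    · exact hd_mem _ hK hR hR'
  · have e1 : (1 - qq L 1 1) * (hd mm ρ (g' + cm S.tot Z') + hd mm (g + cm S.tot Z) ρ'
        - C (L : M) * hd mm ρ ρ' + z * qf L 1 1)
        = hd mm ((1 - qq L 1 1) * ρ) (1 + X * (g' - ρ'))
          + hd mm (1 + X * (g - ρ)) ((1 - qq L 1 1) * ρ')
          - C (L : M) * hd mm ((1 - qq L 1 1) * ρ) ((1 - qq L 1 1) * ρ')
          + C ((L⁻¹ : Mˣ) : M) * (X * lam) := by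
      have hs : ∀ f : M⟦X⟧, (1 - qq L 1 1) * f = f - C ((L⁻¹ : Mˣ) : M) * (X * f) := by
        intro f
        rw [qq11]
        ring
      rw [hs, hs, hs]
      ext m
      rcases m with _ | m
      · simp only [map_sub, map_add, Pool.Agent.J4H46.MT.coeff_hd, coeff_C_mul, coeff_zero_X_mul, mul_zero,
          sub_zero, add_zero, cmm, coeff_zero_one, mul_one, one_mul, q_zero, hg, hg',
          gtr_zero', LinearMap.add_apply, LinearMap.sub_apply]
        ring
      · have g1 := gtr_succ (cm S.tot Z) m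
        have g2 := gtr_succ (cm S.tot Z') m
        rw [← hg] at g1
        rw [← hg'] at g2
        have h1 : coeff (m + 1) (1 : M⟦X⟧) = 0 := by
          rw [coeff_one, if_neg (Nat.succ_ne_zero m)]
        simp only [map_sub, map_add, Pool.Agent.J4H46.MT.coeff_hd, coeff_C_mul, coeff_succ_X_mul, cmm, h1,
          q_mul, LinearMap.add_apply, LinearMap.sub_apply]
        rw [cz m, ct m, ct' m]
        linear_combination (-coeff (m + 1) ρ) * g2 - coeff (m + 1) ρ' * g1 + (-(coeff (m + 1) ρ * coeff m ρ') - coeff m ρ * coeff (m + 1) ρ'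
          + ((L⁻¹ : Mˣ) : M) * coeff m ρ * coeff m ρ') * hl
    rw [e1]
    refine Subring.add_mem _ (Subring.sub_mem _ (Subring.add_mem _ ?_ ?_) ?_) ?_
    · exact hd_mem' _ hK (self_LE hσ) (Subring.add_mem _ (Subring.one_mem _)
        (Subring.mul_mem _ X_mem (self_LE hδ')))
    · exact hd_mem' _ hK (Subring.add_mem _ (Subring.one_mem _)
        (Subring.mul_mem _ X_mem (self_LE hδ))) (self_LE hσ')
    · exact Subring.mul_mem _ (C_mem _) (hd_mem' _ hK (self_LE hσ) (self_LE hσ'))
    · exact Subring.mul_mem _ (C_mem _) (Subring.mul_mem _ X_mem hlamK)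
  · have e0 : gtr (cm S.tot (tsm S Z Z')) = hd mm g g' + z + z * qf L 1 1 := by
      apply Xcancel
      have h1 := gtr_eq (cm S.tot (tsm S Z Z'))
      have h2 : X * (z * qf L 1 1) = C (L : M) * (z * qf L 1 1) - X * z := by
        have h4 := qf11 (L := L)
        have h5 := ll L
        rw [qq11] at h4
        linear_combination (-(C (L : M)) * z) * h4 - (X * z * (1 + qf L 1 1)) * h5
      have h3 : (1 - X) * hd mm g g' = 1 - hd mm (cm S.tot Z) g' - hd mm g (cm S.tot Z')
          - hd mm (cm S.tot Z) (cm S.tot Z') := by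
        ext m
        rw [sub_mul, one_mul]
        rcases m with _ | m
        · simp only [map_sub, Pool.Agent.J4H46.MT.coeff_hd, coeff_zero_X_mul, coeff_zero_one, cmm, sub_zero, hg,
            hg', gtr_zero', LinearMap.sub_apply]
          ring
        · have g1 := gtr_succ (cm S.tot Z) m
          have g2 := gtr_succ (cm S.tot Z') m
          rw [← hg] at g1
          rw [← hg'] at g2
          have h1 : coeff (m + 1) (1 : M⟦X⟧) = 0 := by
            rw [coeff_one, if_neg (Nat.succ_ne_zero m)]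
          simp only [map_sub, Pool.Agent.J4H46.MT.coeff_hd, coeff_succ_X_mul, cmm, h1, LinearMap.sub_apply]
          rw [g1, g2]
          ring
      have h4 : cm S.tot (tsm S Z Z') = hd mm (cm S.tot Z) g' + hd mm g (cm S.tot Z')
          + (hd mm (cm S.tot Z) (cm S.tot Z') - z) + (C (L : M) - 1) * (z * qf L 1 1) := by
        rw [tsm, ← hg, ← hg', ← hz]
        ext m
        have h6 : coeff m ((C (L : M) - 1) * (z * qf L 1 1))
            = ((L : M) - 1) * coeff m (z * qf L 1 1) := by
          rw [sub_mul, one_mul, map_sub, coeff_C_mul]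
          ring
        have h7 : ∀ (x : E) (y : M), S.tot (x * algebraMap M E y) = S.tot x * y := by
          intro x y
          rw [mul_comm, ← Algebra.smul_def, map_smul, smul_eq_mul, mul_comm]
        have h8 : ∀ (x : M) (y : E), S.tot (algebraMap M E x * y) = x * S.tot y := by
          intro x y
          rw [← Algebra.smul_def, map_smul, smul_eq_mul]
        have h9 := S.tot_nz (coeff m Z) (coeff m Z')
        have h10 : S.tot (algebraMap M E (coeff m (z * qf L 1 1)))
            = ((L : M) - 1) * coeff m (z * qf L 1 1) := by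
          have := tot_alg S 0 (coeff m (z * qf L 1 1))
          rwa [map_zero, zero_add, zero_add] at this
        rw [coeff_cm]
        simp only [map_add, map_sub, Pool.Agent.J4H46.MT.coeff_hd, coeff_map, LinearMap.mul_apply', cmm, coeff_cm,
          h6, h7, h8, h10]
        have h11 : coeff m z = S.zr (coeff m Z) (coeff m Z') := by rw [hz, Pool.Agent.J4H46.MT.coeff_hd]
        rw [h11]
        linear_combination h9
      linear_combination h1 - h4 - h3 + h2
    have e1 : gtr (cm S.tot (tsm S Z Z')) - (hd mm ρ (g' + cm S.tot Z')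
        + hd mm (g + cm S.tot Z) ρ' - C (L : M) * hd mm ρ ρ' + z * qf L 1 1)
        = hd mm (g - ρ) (g' - ρ') + lam := by
      rw [e0]
      ext m
      simp only [map_sub, map_add, Pool.Agent.J4H46.MT.coeff_hd, coeff_C_mul, cmm, LinearMap.add_apply,
        LinearMap.sub_apply]
      rw [cz m, ct m, ct' m]
      ring
    rw [e1]
    exact Subring.add_mem _ (hd_mem' _ hK (self_LE hδ) (self_LE hδ')) hlamK

theorem t_Z1 : S_Z1 := by
  intro M E _ _ _ L S K K' K'' Z Z' hK hF hG
  exact dec_sum S.toTSys hK hF hG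

end Pool.Agent.J4H18.YZ
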