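import Pool.Agent.J4H46.MT.Sum
import Pool.Agent.J4H50.YZ.Stm

/-!
# YZ-Z2: semi-weighted-homogeneous germs (for helper50)

Copy of `swA_mem`, `swV_mem` and of the field `dec` of `good_swh` (`J4H46/MT/Cls.lean`), for any finite
type of variables and any classes `po`.
-/

set_option autoImplicit false
set_option linter.unusedSectionVars false
set_option linter.unusedVariables false

namespace Pool.Agent.J4H18.YZ

open PowerSeries Pool.Agent.W574.MO Pool.Agent.W574.RO Pool.Agent.W574.SM Pool.Agent.N103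
open Pool.Agent.J4H46.MS Pool.Agent.J4H46.MT
open Pool.Agent.J4H46.MQ (map_qq map_geo map_den den_mono qq11 ll Xcancel)
open Pool.Agent.J4H50.YZ

open scoped Polynomial

variable {M E : Type} [CommRing M] [CommRing E] [Algebra M E] {L : Mˣ}

variable {σ : Type} [Fintype σ]

theorem wt_add (w : σ → ℕ) {D : ℕ} (hD : 0 < D) (m : ℕ) :
    ∑ i, (m + D) * w i / D = ∑ i, m * w i / D + ∑ i, w i := by
  rw [← Finset.sum_add_distrib]
  refine Finset.sum_congr rfl fun i _ => ?_
  rw [Nat.add_mul, Nat.add_mul_div_left _ _ hD]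

theorem swE_mem (w : σ → ℕ) {D : ℕ} (hD : 0 < D) (hW : 1 ≤ ∑ i, w i)
    (po : Finset σ → E) {K : ℕ → ℕ → Prop} (hK : K D (∑ i, w i)) :
    swE L w D po ∈ DenRing (Pool.Agent.J4H46.MS.LE L) K := by
  have h1 : IsPol ((1 - qq (Pool.Agent.J4H46.MS.LE L) D (∑ i, w i)) * swE L w D po) := by
    refine ⟨D + 1, fun e he => ?_⟩
    rw [sub_mul, one_mul, map_sub, coeff_qq_mul, if_pos (by omega)]
    obtain ⟨k, rfl⟩ : ∃ k, e = k + D := ⟨e - D, by omega⟩
    rw [Nat.add_sub_cancel, swE, coeff_mk, coeff_mk, if_neg (by omega), if_neg (by omega),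
      wt_add w hD, pow_add, Units.val_mul]
    have h2 : (Finset.univ.filter fun i => D ∣ (k + D) * w i)
        = Finset.univ.filter fun i => D ∣ k * w i := by
      refine Finset.filter_congr fun i _ => ?_
      rw [Nat.add_mul]
      exact (Nat.dvd_add_left (dvd_mul_right D (w i)))
    rw [h2]
    ring
  have h3 : swE L w D po = geo (Pool.Agent.J4H46.MS.LE L) D (∑ i, w i)
      * ((1 - qq (Pool.Agent.J4H46.MS.LE L) D (∑ i, w i)) * swE L w D po) := by
    linear_combination (-swE L w D po) * geo_mul (Pool.Agent.J4H46.MS.LE L : Eˣ) hD (∑ i, w i)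
  rw [h3]
  exact Subring.mul_mem _ (geo_mem hD hW hK) (mem_of_isPol h1)

theorem swVM_mem (w : σ → ℕ) (hw : ∀ i, 0 < w i) {D : ℕ} (hD : 0 < D) (hW : 1 ≤ ∑ i, w i)
    {K : ℕ → ℕ → Prop} (hK : K D (∑ i, w i)) : swVM L w D ∈ DenRing L K := by
  have h1 : IsPol ((1 - qq L D (∑ i, w i)) * swVM L w D) := by
    refine ⟨D, fun e he => ?_⟩
    rw [sub_mul, one_mul, map_sub, coeff_qq_mul, if_pos he]
    obtain ⟨k, rfl⟩ : ∃ k, e = k + D := ⟨e - D, by omega⟩
    rw [Nat.add_sub_cancel, swVM, coeff_mk, coeff_mk]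
    have h2 : ∑ i, ((k + D + 1) * w i - 1) / D = ∑ i, ((k + 1) * w i - 1) / D + ∑ i, w i := by
      rw [← Finset.sum_add_distrib]
      refine Finset.sum_congr rfl fun i _ => ?_
      have h3 : (k + D + 1) * w i - 1 = ((k + 1) * w i - 1) + D * w i := by
        have h4 : 1 ≤ (k + 1) * w i := Nat.mul_pos (Nat.succ_pos k) (hw i)
        have h5 : (k + D + 1) * w i = (k + 1) * w i + D * w i := by ring
        omega
      rw [h3, Nat.add_mul_div_left _ _ hD]
    rw [h2, pow_add, Units.val_mul]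
    ring
  have h3 : swVM L w D = geo L D (∑ i, w i)
      * ((1 - qq L D (∑ i, w i)) * swVM L w D) := by
    linear_combination (-swVM L w D) * geo_mul L hD (∑ i, w i)
  rw [h3]
  exact Subring.mul_mem _ (geo_mem hD hW hK) (mem_of_isPol h1)

theorem t_Z2 : S_Z2 := by
  intro M E _ _ _ L S σ _ _ w D hw hD po K hK
  have hW : 1 ≤ ∑ i, w i := Finset.sum_pos (fun i _ => hw i) Finset.univ_nonempty
  have hA := swE_mem (L := L) w hD hW po hK
  have hV := swVM_mem (L := L) w hw hD hW hK
  have hT := cm_mem' S.tot hA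
  set A := swE L w D po with hAd
  set V := swVM L w D with hVd
  set B := 1 - (1 - X) * V - cm S.tot A with hB
  have hBK : B ∈ DenRing L K :=
    Subring.sub_mem _ (Subring.sub_mem _ (Subring.one_mem _) (Subring.mul_mem _
      (Subring.sub_mem _ (Subring.one_mem _) X_mem) hV)) hT
  have h4 := qf11 (L := L)
  have h5 := ll L
  rw [qq11] at h4
  refine ⟨A, B * qf L 1 1, rfl, hA, ?_, ?_⟩
  · have e1 : (1 - qq L 1 1) * (B * qf L 1 1) = qq L 1 1 * B := by
      rw [qq11]
      linear_combination B * h4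
    rw [e1]
    exact Subring.mul_mem _ (qq_mem _ _) hBK
  · have e2 : gtr (cm S.tot (swZE S w D po)) - B * qf L 1 1 = V + B := by
      apply Xcancel
      have h6 := gtr_eq (cm S.tot (swZE S w D po))
      have h7 : cm S.tot (swZE S w D po) = cm S.tot A + C ((L : M) - 1) * (B * qf L 1 1) := by
        rw [swZE, ← hAd, ← hVd, ← hB, cm_add]
        congr 1
        exact cm_tot_map (S := S.toTSys.mon) _
      rw [map_sub, map_one] at h7
      linear_combination h6 - h7 + (-(C (L : M)) * B) * h4 - (X * B * (1 + qf L 1 1)) * h5 - hB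
    rw [e2]
    exact Subring.add_mem _ hV hBK

end Pool.Agent.J4H18.YZ
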